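import Pool.Agent.P8H64.TQ.Gap

/-!
# The Singer conjecture for right-angled Coxeter groups and an exponential bound for one `ℓ²`-Betti number

Let the flag complex of the finite graph `G` (the nerve of the right-angled Coxeter group `W G`) be a homology sphere
and homology manifold of dimension `n - 1` (`HSph n G`), for example a flag triangulation of the sphere. Then `W G`
acts properly and cocompactly on its Davis complex, a contractible homology manifold of dimension `n`. The Singer
conjecture says that the `ℓ²`-Betti numbers vanish outside the degree `n / 2`.

We show that it is enough to have, in infinitely many dimensions `n`, an upper bound `A θ ^ v` with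
`θ < (7/2)^(1/18) = 1.072…` for the single `ℓ²`-Betti number in the degree `⌊n/2⌋ + 1`, where `v` is the number of
vertices, and only for the members with Euler characteristic zero.
-/

set_option autoImplicit false

namespace Pool.Agent.Results.MP_577489_gt.ExponentialGap

open Pool.Agent.W907.SG Pool.Agent.TH652.Above Pool.Agent.P8H64.TP Pool.Agent.P8H64.TQ

/-- **Result.** Let `C` be a class of flag homology spheres which is closed under joins and links of simplices and
contains the pentagon and the 18-gon. The `ℓ²`-Betti numbers of the right-angled Coxeter groups of all members, of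
dimension `n - 1` say, vanish in the degrees `≠ n / 2` if and only if there are `A` and `θ` with `θ ^ 18 < 7 / 2` and
infinitely many `n` such that for all members of dimension `n - 1` with `v` vertices and Euler characteristic zero the
`ℓ²`-Betti number in the degree `⌊n / 2⌋ + 1` is at most `A θ ^ v`. The class of all flag homology spheres is such a
class. -/
theorem result :
    (∀ C : (∀ (n : ℕ) (V : Type) [Fintype V] [LinearOrder V], SimpleGraph V → Prop), GapClass C →
      ((∀ (n : ℕ) (V : Type) [Fintype V] [LinearOrder V] (G : SimpleGraph V), C n V G →
          ∀ i : ℕ, 2 * i ≠ n → L2Van G i) ↔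
        ∃ θ A : ℝ, 0 < θ ∧ θ ^ 18 < 7 / 2 ∧ ∀ N : ℕ, ∃ n : ℕ, N ≤ n ∧
          ∀ (V : Type) [Fintype V] [LinearOrder V] (G : SimpleGraph V), C n V G → chiW G = 0 →
            bet G (n / 2 + 1) ≤ A * θ ^ Fintype.card V)) ∧
    GapClass (fun n V _ _ G => HSph n G) := by
  refine ⟨fun C hC => ⟨fun h => ?_, fun h => ?_⟩, all_gap⟩
  · exact gap_of_qone (qone_of_singer h)
  · exact singer_of_gap hC h

end Pool.Agent.Results.MP_577489_gt.ExponentialGap
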