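import Pool.Agent.P8H64.TP.Main

/-!
# A one percent law for the `ℓ²`-Betti numbers of right-angled Coxeter groups

Let the flag complex of the finite graph `G` (the nerve of the right-angled Coxeter group `W G`) be a homology sphere
and homology manifold of dimension `n - 1` (`HSph n G`), for example a flag triangulation of the sphere. The Singer
conjecture says that the `ℓ²`-Betti numbers vanish outside the degree `n / 2`; for `n = 2 m` the middle `ℓ²`-Betti
number is then the sum of all of them. We show that it is enough to know that it is at least one percent of the sum,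
for infinitely many dimensions; more generally that a window of width `o(√m)` around the middle degree carries one
percent of the sum; or that the part far away from the middle is superexponentially small in the number of vertices.
-/

set_option autoImplicit false

namespace Pool.Agent.Results.MP_577489_gt.OnePercentLaw

open Pool.Agent.W907.SG Pool.Agent.TH652.Above Pool.Agent.P8H64.TP

/-- **Result.** Let `C` be a class of flag homology spheres which is closed under joins and contains the
pentagon. The following are equivalent:
(1) for all members, of dimension `n - 1` say, the `ℓ²`-Betti numbers of the right-angled Coxeter group vanish in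
the degrees `≠ n / 2`;
(2) there is `δ > 0` such that for infinitely many `m` and all members of dimension `2 m - 1` the middle
`ℓ²`-Betti number is at least `δ` times the sum of all `ℓ²`-Betti numbers;
(3) for every `K` there are `m ≥ 1` and `w` such that for all members of dimension `2 m - 1` the `ℓ²`-Betti numbers
in the degrees `m - w, …, m + w` sum up to at least `K (w + 1) / √m` times the sum of all `ℓ²`-Betti numbers;
(4) for every `ε > 0` there are infinitely many `m` such that for all members with `v` vertices and of dimension
`2 m - 1` and all degrees `i` with `|i - m| ≥ ε v` the `i`-th `ℓ²`-Betti number is at most `ε ^ v` times the sum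
of all `ℓ²`-Betti numbers.
The class of all flag homology spheres is such a class. -/
theorem result :
    (∀ C : (∀ (n : ℕ) (V : Type) [Fintype V] [LinearOrder V], SimpleGraph V → Prop), JoinClass C →
      List.TFAE [
        ∀ (n : ℕ) (V : Type) [Fintype V] [LinearOrder V] (G : SimpleGraph V), C n V G →
          ∀ i : ℕ, 2 * i ≠ n → L2Van G i,
        ∃ δ : ℝ, 0 < δ ∧ ∀ N : ℕ, ∃ m : ℕ, N ≤ m ∧
          ∀ (V : Type) [Fintype V] [LinearOrder V] (G : SimpleGraph V), C (2 * m) V G →
            δ * ∑ j ∈ Finset.range (2 * m + 1), bet G j ≤ bet G m,
        ∀ K : ℝ, ∃ m : ℕ, 1 ≤ m ∧ ∃ w : ℕ,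
          ∀ (V : Type) [Fintype V] [LinearOrder V] (G : SimpleGraph V), C (2 * m) V G →
            K * (w + 1) * ∑ j ∈ Finset.range (2 * m + 1), bet G j ≤
              √m * ∑ j ∈ Finset.Icc (m - w) (m + w), bet G j,
        ∀ ε : ℝ, 0 < ε → ∀ N : ℕ, ∃ m : ℕ, N ≤ m ∧
          ∀ (V : Type) [Fintype V] [LinearOrder V] (G : SimpleGraph V), C (2 * m) V G →
            ∀ i : ℕ, ε * Fintype.card V ≤ |(i : ℝ) - m| →
              bet G i ≤ ε ^ Fintype.card V * ∑ j ∈ Finset.range (2 * m + 1), bet G j]) ∧
    JoinClass (fun n V _ _ G => HSph n G) := by
  refine ⟨fun C hC => ?_, ⟨fun n V _ _ G h => h, fun m n V U _ _ _ _ G H hG hH =>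
    hsph_join hG hH, hsph5⟩⟩
  have h12 : Singer C → Percent C := percent_of_singer
  have h23 : Percent C → Window C := window_of_percent
  have h31 : Window C → Singer C := singer_of_window hC
  have h14 : Singer C → Tails C := tails_of_singer hC
  have h41 : Tails C → Singer C := singer_of_tails hC
  tfae_have 1 → 2 := h12
  tfae_have 2 → 3 := h23
  tfae_have 3 → 1 := h31
  tfae_have 1 → 4 := h14
  tfae_have 4 → 1 := h41
  tfae_finish

end Pool.Agent.Results.MP_577489_gt.OnePercentLaw
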