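import Pool.Agent.P8H64.SV.All

/-!
# The Singer conjecture for right-angled Coxeter groups: a little-o is enough

Let the flag complex of the finite graph `G` with `v` vertices be a homology sphere and homology manifold of dimension
`n - 1` (`HSph n G`), for example a flag triangulation of the sphere. It is the nerve of the right-angled Coxeter group
`W G`, and `bet G i` is the von Neumann dimension of `ℋ_i` of the Davis complex.

Trivially `bet G i` is at most the number `f` of simplices of the nerve. We show that it is enough for the Singer
conjecture to replace this by a `o(f)`, in one dimension `n` for each `s` and for members with `f = O(v ^ k)`,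
`k = (n - 1) / 2 - s`; or to save arbitrarily large powers of `v`, in suitable dimensions. More precisely such a bound in
the dimension `n + 2 k` and the degree `i + k` gives zero in the dimension `n` and the degree `i`.
-/

set_option autoImplicit false

namespace Pool.Agent.Results.MP_577489_gt.PowerSaving

open Pool.Agent.W907.SG Pool.Agent.TH652.Above Pool.Agent.P8H64.TP Pool.Agent.P8H64.SV

/-- **Result.** Let `C` be a class of flag homology spheres which is closed under joins and links and contains the
polygons with at least four vertices (for example all flag homology spheres, or those which are combinatorial spheres);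
`C n V G` says that the flag complex of the graph `G` on `V` is a member, of dimension `n - 1`; put `v = |V|` and let
`f` be the number of its simplices, including the empty one.
(A) Let `k ≥ 1`. If for every `K` we have `bet G (i + k) = o(v ^ k)` for the members with `f ≤ K · v ^ k`, of dimension
`n + 2 k - 1`, then `ℋ_i = 0` for all members of dimension `n - 1`.
(B) The following are equivalent:
(1) for every member, of dimension `n - 1` say, `ℋ_i = 0` for all `i ≠ n / 2`;
(2) for every `s` there is `k ≥ 1` such that for every `K` we have `bet G (s + k + 1) = o(v ^ k)` for the members of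
dimension `2 (s + k)` with `f ≤ K · v ^ k`;
(3) for every `s` there are `n ≥ s` and `A` with `bet G (⌊n / 2⌋ + 1) ≤ A · v ^ (n / 2 - s)` for all members of
dimension `n - 1` with Euler characteristic zero.
(C) The class of all flag homology spheres is such a class. -/
theorem result :
    (∀ C : (∀ (n : ℕ) (V : Type) [Fintype V] [LinearOrder V], SimpleGraph V → Prop), FlagClass C →
      (∀ n i k : ℕ, 1 ≤ k →
        (∀ K ε : ℝ, 0 < ε → ∃ v₀ : ℕ, ∀ (V : Type) [Fintype V] [LinearOrder V] (G : SimpleGraph V),
          C (n + 2 * k) V G → v₀ ≤ Fintype.card V →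
            (Nat.card {T : Finset V // G.IsClique (T : Set V)} : ℝ) ≤ K * (Fintype.card V : ℝ) ^ k →
              bet G (i + k) ≤ ε * (Fintype.card V : ℝ) ^ k) →
        ∀ (V : Type) [Fintype V] [LinearOrder V] (G : SimpleGraph V), C n V G → L2Van G i) ∧
      List.TFAE [
        ∀ (n : ℕ) (V : Type) [Fintype V] [LinearOrder V] (G : SimpleGraph V), C n V G →
          ∀ i : ℕ, 2 * i ≠ n → L2Van G i,
        ∀ s : ℕ, ∃ k : ℕ, 1 ≤ k ∧ ∀ K ε : ℝ, 0 < ε → ∃ v₀ : ℕ,
          ∀ (V : Type) [Fintype V] [LinearOrder V] (G : SimpleGraph V), C (2 * (s + k) + 1) V G →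
            v₀ ≤ Fintype.card V →
              (Nat.card {T : Finset V // G.IsClique (T : Set V)} : ℝ) ≤ K * (Fintype.card V : ℝ) ^ k →
                bet G (s + k + 1) ≤ ε * (Fintype.card V : ℝ) ^ k,
        ∀ s : ℕ, ∃ n : ℕ, s ≤ n ∧ ∃ A : ℝ,
          ∀ (V : Type) [Fintype V] [LinearOrder V] (G : SimpleGraph V), C n V G → chiW G = 0 →
            bet G (n / 2 + 1) ≤ A * (Fintype.card V : ℝ) ^ ((n : ℝ) / 2 - s)]) ∧
    FlagClass (fun n V _ _ G => HSph n G) := by
  refine ⟨fun C hC => ⟨fun n i k hk h V _ _ G hG => van_of_littleAll hC hk h V G hG, ?_⟩, all_flag⟩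
  have h31 : Savings C → Pool.Agent.P8H64.TP.Singer C := singer_of_savings hC
  have h13 : Pool.Agent.P8H64.TP.Singer C → Savings C := savings_of_singer
  have h12 : Pool.Agent.P8H64.TP.Singer C → OddLittle C := oddLittle_of_singer
  have h21 : OddLittle C → Pool.Agent.P8H64.TP.Singer C := singer_of_oddLittle hC
  tfae_have 1 → 3 := h13
  tfae_have 3 → 1 := h31
  tfae_have 1 → 2 := h12
  tfae_have 2 → 1 := h21
  tfae_finish

end Pool.Agent.Results.MP_577489_gt.PowerSaving
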